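import Pool.Agent.Helper3.WA.St.Stubs
import Pool.Agent.Helper48.ET.IntsCore
import Pool.Agent.Helper48.ET.LocalSteps
import Pool.Agent.Helper12.WT.A45

/-! WA-12: `rp_wd_same`, `rp_wd_far` (MP_12a1af_nt, Q2) -/

set_option autoImplicit false

namespace Pool.Agent.Helper12.WA

open Finset
open Pool.Agent.Helper48.ET
open Pool.Agent.Helper3.WA
open Pool.Agent.Helper3.WT (rp)

variable {p : ℕ} [Fact p.Prime]

/-- `BlockRel C (2n+1)` sees only the digits `< n` -/
theorem blockRel_congr {C n : ℕ} (hC0 : 0 < C) {θ : Par p} {x x' z z' : ℕ → ZMod p}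
    (hx : ∀ u < n, x u = x' u) (hz : ∀ u < n, z u = z' u) (i : ℕ)
    (h : BlockRel C (2 * n + 1) θ x z i) : BlockRel C (2 * n + 1) θ x' z' i := by
  have hmm : C ^ i * mm C (2 * n + 1) i ≤ n := by
    have h1 := mm_le hC0 (2 * n + 1) i
    have h2 : 0 < C ^ i := by positivity
    have h3 : 2 * C ^ i * mm C (2 * n + 1) i = 2 * (C ^ i * mm C (2 * n + 1) i) := by ring
    omega
  have hle := mul_mm_le hC0 (2 * n + 1) i
  have key : ∀ a a' : ℕ → ZMod p, (∀ u < n, a u = a' u) → ∀ u, u < mm C (2 * n + 1) i →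
      cell p C a i u = cell p C a' i u := by
    intro a a' haa u hu
    refine cell_congr hC0 fun v _ hv => haa v ?_
    calc v < (u + 1) * C ^ i := hv
      _ ≤ mm C (2 * n + 1) i * C ^ i := Nat.mul_le_mul_right _ hu
      _ = C ^ i * mm C (2 * n + 1) i := mul_comm _ _
      _ ≤ n := hmm
  have hcc : ∀ s < cc C (2 * n + 1) i, C * mm C (2 * n + 1) (i + 1) + s < mm C (2 * n + 1) i := by
    intro s hs
    unfold cc at hs
    omega
  have htw : ∀ s, tw C (2 * n + 1) θ x i s = tw C (2 * n + 1) θ x' i s := by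
    intro s
    unfold tw
    split_ifs
    · refine sum_congr rfl fun u hu => ?_
      rw [key x x' hx u (lt_of_lt_of_le (mem_range.1 hu) hle)]
    · rfl
  unfold BlockRel at h ⊢
  have e1 : ∑ s ∈ range (cc C (2 * n + 1) i),
      (cell p C z' i (C * mm C (2 * n + 1) (i + 1) + s) - tw C (2 * n + 1) θ x' i s) *
        eb p (C ^ i) (cc C (2 * n + 1) i) s =
      ∑ s ∈ range (cc C (2 * n + 1) i),
      (cell p C z i (C * mm C (2 * n + 1) (i + 1) + s) - tw C (2 * n + 1) θ x i s) *
        eb p (C ^ i) (cc C (2 * n + 1) i) s :=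
    sum_congr rfl fun s hs => by
      rw [key z z' hz _ (hcc s (mem_range.1 hs)), htw s]
  have e2 : ∑ s ∈ range (cc C (2 * n + 1) i), cell p C x' i (C * mm C (2 * n + 1) (i + 1) + s) *
      eb p (C ^ i) (cc C (2 * n + 1) i) s =
      ∑ s ∈ range (cc C (2 * n + 1) i), cell p C x i (C * mm C (2 * n + 1) (i + 1) + s) *
      eb p (C ^ i) (cc C (2 * n + 1) i) s :=
    sum_congr rfl fun s hs => by
      rw [key x x' hx _ (hcc s (mem_range.1 hs))]
  rw [e1, e2]
  exact h

/-- an element of `WR C n θ R` is the integer of a word of `PW C n θ` -/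
theorem wr_word {C n l H : ℕ} (hC : 2 ≤ C) {θ : Par p} {R : Set ℕ} (hR : RSet p l H R) {a : ℕ}
    (ha : a ∈ WR C n θ R) : ∃ x z, PW C n θ x z ∧ a = enc (n + 2) x z ∧
      (x (n + 1)).val + 2 * p * (z (n + 1)).val ∈ R := by
  obtain ⟨x, z, h, r, hr, rfl⟩ := ha
  obtain ⟨ξ, ζ, hr2⟩ := hR.form r hr
  refine ⟨Function.update x (n + 1) ξ, Function.update z (n + 1) ζ, ⟨?_, ?_, ?_, ?_⟩, ?_, ?_⟩
  · intro u hu
    rw [Function.update_of_ne (by omega)]
    exact h.xs u (by omega)
  · intro u hu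
    rw [Function.update_of_ne (by omega)]
    exact h.zs u (by omega)
  · intro i
    refine blockRel_congr (by omega) (fun u hu => ?_) (fun u hu => ?_) i (h.rel i)
    · rw [Function.update_of_ne (by omega)]
    · rw [Function.update_of_ne (by omega)]
  · rw [Function.update_of_ne (by omega), Function.update_of_ne (by omega), h.top]
    congr 1
    refine sum_congr rfl fun v hv => ?_
    have := mem_range.1 hv
    rw [Function.update_of_ne (by omega)]
  · rw [WT.enc_succ' (n + 1), Function.update_self, Function.update_self, ← hr2, mul_comm]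
    congr 1
    unfold enc
    refine sum_congr rfl fun v hv => ?_
    have := mem_range.1 hv
    rw [Function.update_of_ne (by omega), Function.update_of_ne (by omega)]
  · rw [Function.update_self, Function.update_self, ← hr2]
    exact hr

open Classical in
/-- general form: pairs of words with a given sum -/
theorem rp_gen {C n K B : ℕ} (hC : 2 ≤ C) {θ : Par p}
    (P : (ℕ → ZMod p) → (ℕ → ZMod p) → Prop) (hxs : ∀ x z, P x z → ∀ u, K ≤ u → x u = 0)
    (hzs : ∀ x z, P x z → ∀ u, K ≤ u → z u = 0)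
    (h : ∀ t w : ℕ → ZMod p, (SolG P (LW C n θ) t w).ncard ≤ B) (Y : Set ℕ)
    (hY : ∀ b ∈ Y, ∃ x z, P x z ∧ b = enc K x z) (m : ℕ) :
    rp (Wd C n θ) Y m ≤ B := by
  unfold rp
  set P1 : Set (ℕ × ℕ) := {q | q.1 ∈ Wd C n θ ∧ q.2 ∈ Y ∧ q.1 + q.2 = m} with hP1
  rcases P1.eq_empty_or_nonempty with he | ⟨q0, ⟨x0, z0, h2, e2⟩, hq2, e3⟩
  · rw [he]
    simp
  · obtain ⟨x0', z0', h1, e1⟩ := hY _ hq2
    have h2xs : ∀ u, n + 1 ≤ u → x0 u = 0 := fun u hu => h2.xs u (by omega)
    have h2zs : ∀ u, n + 1 ≤ u → z0 u = 0 := fun u hu => h2.zs u (by omega)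
    set t : ℕ → ZMod p := x0' + x0 with ht
    set w : ℕ → ZMod p := z0' + z0 with hw
    let zof : (ℕ → ZMod p) → (ℕ → ZMod p) := fun x' =>
      if h : ∃ z, P x' z ∧ LW C n θ (t - x') (w - z) then Classical.choose h else 0
    let g : (ℕ → ZMod p) → ℕ × ℕ := fun x' => (m - enc K x' (zof x'), enc K x' (zof x'))
    have hg : ∀ (x' z' : ℕ → ZMod p) (q : ℕ × ℕ), P x' z' → LW C n θ (t - x') (w - z') →
        q.2 = enc K x' z' → q.1 + q.2 = m → g x' = q := by
      intro x' z' q hc hc2 hq1 hq2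
      have hex : ∃ z, P x' z ∧ LW C n θ (t - x') (w - z) := ⟨z', hc, hc2⟩
      have hzof : zof x' = z' := by
        simp only [zof, dif_pos hex]
        have h5 := St.lw_unique hC (Classical.choose_spec hex).2 hc2
        exact sub_right_injective h5
      simp only [g, hzof]
      rw [← hq1]
      ext
      · show m - q.2 = q.1
        omega
      · rfl
    have hsub : P1 ⊆ g '' (SolG P (LW C n θ) t w) := by
      rintro q ⟨⟨y, v, h4, f2⟩, hq2', f3⟩
      obtain ⟨y', v', h3, f1⟩ := hY _ hq2'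
      have h4xs : ∀ u, n + 1 ≤ u → y u = 0 := fun u hu => h4.xs u (by omega)
      have h4zs : ∀ u, n + 1 ≤ u → v u = 0 := fun u hu => h4.zs u (by omega)
      have hadd := enc_add (hxs _ _ h1) (hzs _ _ h1) h2xs h2zs (hxs _ _ h3) (hzs _ _ h3)
        h4xs h4zs (by rw [← e1, ← e2, ← f1, ← f2, add_comm, e3, add_comm, f3])
      have hx : ∀ u, x0' u + x0 u = y' u + y u := by
        intro u
        have := congrArg (Nat.cast : ℕ → ZMod p) (hadd u).1
        simpa using this
      have hz : ∀ u, z0' u + z0 u = v' u + v u := by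
        intro u
        have := congrArg (Nat.cast : ℕ → ZMod p) (hadd u).2
        simpa using this
      have ey : t - y' = y := by
        funext u
        rw [ht]
        simp only [Pi.add_apply, Pi.sub_apply]
        rw [hx u]; ring
      have ev : w - v' = v := by
        funext u
        rw [hw]
        simp only [Pi.add_apply, Pi.sub_apply]
        rw [hz u]; ring
      have h6 : LW C n θ (t - y') (w - v') := by
        rw [ey, ev]
        exact h4
      exact ⟨y', ⟨v', h3, h6⟩, hg y' v' q h3 h6 f1 f3⟩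
    have hfin : (SolG P (LW C n θ) t w).Finite := by
      apply (Pool.Agent.Helper48.ET.K.finite_supp (p := p) K).subset
      rintro x ⟨z, hz, _⟩
      exact hxs x z hz
    exact (Set.ncard_le_ncard hsub (hfin.image g)).trans ((Set.ncard_image_le hfin).trans (h _ _))

/-- WA-12 -/
theorem rp_wd_same {C n B : ℕ} (hC : 2 ≤ C) {θ : Par p}
    (h : ∀ t w : ℕ → ZMod p, (SolG (LW C n θ) (LW C n θ) t w).ncard ≤ B) (m : ℕ) :
    rp (Wd C n θ) (Wd C n θ) m ≤ B :=
  rp_gen (K := n + 1) hC (LW C n θ) (fun x z hz u hu => hz.xs u (by omega))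
    (fun x z hz u hu => hz.zs u (by omega)) h (Wd C n θ)
    (fun _ ⟨x, z, h1, h2⟩ => ⟨x, z, h1, h2⟩) m

/-- WA-12 -/
theorem rp_wd_far {C n' n B l H : ℕ} (hC : 2 ≤ C) {θ' θ : Par p} (_hn : n' + 2 ≤ n)
    (h : ∀ t w : ℕ → ZMod p, (SolG (PW C n' θ') (LW C n θ) t w).ncard ≤ B) {R : Set ℕ}
    (hR : RSet p l H R) (m : ℕ) : rp (Wd C n θ) (WR C n' θ' R) m ≤ B :=
  rp_gen (K := n' + 2) hC (PW C n' θ') (fun x z hz u hu => hz.xs u (by omega))
    (fun x z hz u hu => hz.zs u (by omega)) h (WR C n' θ' R)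
    (fun _ hb => by
      obtain ⟨x, z, h1, h2, _⟩ := wr_word hC hR hb
      exact ⟨x, z, h1, h2⟩) m

end Pool.Agent.Helper12.WA
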